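import Pool.Agent.H32.N6W.TargetsL

/-!
# Two quadrics in `ℙ⁶`: the constants are products of symbols (row QPF)
-/

set_option autoImplicit false

open Polynomial NumberField IsDedekindDomain Matrix Pool.Agent.H32.QC Pool.Agent.H34.N6
open Pool.Agent.H13.DEV Pool.Agent.H34.N6V Pool.Agent.H63.WT Pool.Agent.H32.N6W

namespace Pool.Agent.H59.N6W

/-- the class does not change under a cast of the index type -/
lemma cls_cast {F : Type} [Field F] {n n' : ℕ} (h : n' = n)
    (A : Matrix (Fin n ⊕ Fin n) (Fin n ⊕ Fin n) F)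
    (B : Matrix (Fin n' ⊕ Fin n') (Fin n' ⊕ Fin n') F)
    (hB : ∀ i j, B i j = A (Sum.map (Fin.cast h) (Fin.cast h) i)
      (Sum.map (Fin.cast h) (Fin.cast h) j)) : cls B = cls A := by
  subst h
  congr 1
  ext i j
  rw [hB]
  cases i <;> cases j <;> rfl

/-- the constant commutes with homomorphisms of fields -/
lemma cls_map_Phi (hGMM : T_GMM) {k F : Type} [Field k] [Field F] (φ : k →+* F)
    (P1 P2 D : k[X]) (h1 : P1.Monic) :
    cls (Phi (P1.map φ) (P2.map φ) (D.map φ)) = cls ((Phi P1 P2 D).map φ) := by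
  obtain ⟨-, -, e, he⟩ := hGMM k F φ P1 (D * P2) h1
  obtain ⟨-, -, e', he'⟩ := hGMM k F φ P1 P2 h1
  refine cls_cast e _ _ fun i j => ?_
  rcases i with i | i <;> rcases j with j | j
  · have := he i j
    rw [Polynomial.map_mul] at this
    simpa [Phi] using this
  · simp [Phi]
  · simp [Phi]
  · have := he' i j
    simp [Phi, this]

/-- one constant is a product of symbols -/
lemma one_const (hREC : T_REC) (hPHI : T_PHI) (hGMM : T_GMM) {k : Type} [Field k] [CharZero k]
    (P1 P2 D : k[X]) (h1 : P1.Monic) (hc : IsCoprime P1 P2) (hD : IsCoprime P1 D)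
    (hs : IsSquare (P1.resultant D)) :
    ∃ (m : ℕ) (x y : Fin m → k), (∀ i, x i ≠ 0 ∧ y i ≠ 0) ∧
    ∀ (F : Type) [Field F] (φ : k →+* F) (e : WG F → ℤ), EInv F e →
      e (cls (Phi (P1.map φ) (P2.map φ) (D.map φ))) = ∏ i, hil (φ (x i)) (φ (y i)) := by
  obtain ⟨hSN, -, h3⟩ := hPHI k two_ne_zero P1 P2 D h1 hc hD
  obtain ⟨m, x, y, hxy, hm⟩ := hREC k _ P1.natDegree (Phi P1 P2 D) (by simp [two_mul])
    hSN.1 hSN.2 (h3 hs).1
  refine ⟨m, x, y, hxy, fun F _ φ e he => ?_⟩
  rw [cls_map_Phi hGMM φ P1 P2 D h1]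
  exact hm F φ e he

/-- concatenation of two products of symbols -/
lemma two_prod {k : Type} [Field k] {F : Type} [Field F] (φ : k →+* F) {m n : ℕ}
    (x y : Fin m → k) (x' y' : Fin n → k) :
    (∏ i, hil (φ (Fin.append x x' i)) (φ (Fin.append y y' i))) =
      (∏ i, hil (φ (x i)) (φ (y i))) * ∏ i, hil (φ (x' i)) (φ (y' i)) := by
  rw [Fin.prod_univ_add]
  simp only [Fin.append_left, Fin.append_right]

theorem pf_QPF (hREC : T_REC) (hPHI : Pool.Agent.H63.WT.T_PHI) (hGMM : T_GMM) (hCLS : T_CLS) :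
    T_QPF := by
  intro k _ _ P1 P2 D h1 h2 hsep hcop hs1 hs2
  have hc12 : IsCoprime P1 P2 := hsep.isCoprime
  have hD1 : IsCoprime P1 D := hcop.of_mul_left_left
  have hD2 : IsCoprime P2 D := hcop.of_mul_left_right
  by_cases hev : Even P1.natDegree
  · obtain ⟨m, x, y, hxy, hm⟩ := one_const hREC hPHI hGMM P1 P2 D h1 hc12 hD1 hs1
    refine ⟨m, x, y, hxy, fun F _ φ e he => ?_⟩
    rw [qm, if_pos (by rwa [natDegree_map])]
    exact hm F φ e he
  · have hs12 : IsSquare ((P1 * P2).resultant D) := by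
      have h := resultant_mul_left P1 P2 D D.natDegree le_rfl
      rw [← h1.natDegree_mul h2] at h
      rw [h]
      exact hs1.mul hs2
    obtain ⟨m, x, y, hxy, hm⟩ := one_const hREC hPHI hGMM P2 P1 D h2 hc12.symm hD2 hs2
    obtain ⟨n, x', y', hxy', hn⟩ := one_const hREC hPHI hGMM (P1 * P2) 1 D (h1.mul h2)
      isCoprime_one_right hcop hs12
    refine ⟨m + n, Fin.append x x', Fin.append y y', fun i => ?_, fun F _ φ e he => ?_⟩
    · refine Fin.addCases (fun i => ?_) (fun i => ?_) i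
      · simpa only [Fin.append_left] using hxy i
      · simpa only [Fin.append_right] using hxy' i
    · rw [qm, if_neg (by rwa [natDegree_map]), two_prod]
      have e1 := hm F φ e he
      have e2 := hn F φ e he
      rw [Polynomial.map_mul, Polynomial.map_one] at e2
      rw [e1, e2]

end Pool.Agent.H59.N6W
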